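import Pool.Agent.K3h91.OSC.System

/-!
Deterministic online set cover on set systems of VC-dimension at most 2 has competitive ratio
of order at least `log ^ 2 n`, where `n` is the number of points.
-/

namespace Pool.Agent.Results.MP_ba67f2_lc.SetCoverLower

open Finset

/-- The VC-dimension of a set system on the points `0, …, n - 1`: the largest size of a set that is
shattered by the system. -/
noncomputable def vcDim {n : ℕ} (𝒮 : Finset (Finset (Fin n))) : ℕ :=
  sSup {k | ∃ A : Finset (Fin n), A.card = k ∧ ∀ B ⊆ A, ∃ s ∈ 𝒮, s ∩ A = B}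

/-- An input of the online set cover problem on the set system `(Fin n, 𝒮)`: a list of points, in
their order of arrival, each of which lies in some member of `𝒮`. -/
def IsInput {n : ℕ} (𝒮 : Finset (Finset (Fin n))) (h : List (Fin n)) : Prop :=
  ∀ p ∈ h, ∃ s ∈ 𝒮, p ∈ s

/-- The sets of `C` cover all points of the list `h`. -/
def IsCover {n : ℕ} (C : Finset (Finset (Fin n))) (h : List (Fin n)) : Prop :=
  ∀ p ∈ h, ∃ s ∈ C, p ∈ s

/-- The minimum size of a cover of the points in the list `h` by members of `𝒮`. -/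
noncomputable def opt {n : ℕ} (𝒮 : Finset (Finset (Fin n))) (h : List (Fin n)) : ℕ :=
  sInf {k | ∃ C : Finset (Finset (Fin n)), C ⊆ 𝒮 ∧ IsCover C h ∧ C.card = k}

/-- A deterministic online algorithm for set cover on the set system `(Fin n, 𝒮)` (it may depend
on the whole system): `sel h` is the family of sets selected once the points of the list `h` have
arrived in this order; selections are irrevocable, and after each arrival every arrived point lies
in a selected set. Any number of sets may be selected at any time. -/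
structure OnlineAlg {n : ℕ} (𝒮 : Finset (Finset (Fin n))) where
  /-- the selected sets after the arrival of the points in the list -/
  sel : List (Fin n) → Finset (Finset (Fin n))
  subset : ∀ h, IsInput 𝒮 h → sel h ⊆ 𝒮
  irrevocable : ∀ h p, IsInput 𝒮 (h ++ [p]) → sel h ⊆ sel (h ++ [p])
  covers : ∀ h, IsInput 𝒮 h → IsCover (sel h) h

lemma opt_le {n : ℕ} {𝒮 : Finset (Finset (Fin n))} {h : List (Fin n)}
    {C : Finset (Finset (Fin n))} (hC : C ⊆ 𝒮) (hc : IsCover C h) :
    opt 𝒮 h ≤ C.card := Nat.sInf_le ⟨C, hC, hc, rfl⟩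

lemma opt_pos {n : ℕ} {𝒮 : Finset (Finset (Fin n))} {h : List (Fin n)}
    {C : Finset (Finset (Fin n))} (hC : C ⊆ 𝒮) (hc : IsCover C h)
    (hne : h ≠ []) : 0 < opt 𝒮 h := by
  have hmem : opt 𝒮 h ∈ {k | ∃ C : Finset (Finset (Fin n)), C ⊆ 𝒮 ∧ IsCover C h ∧ C.card = k} :=
    Nat.sInf_mem ⟨C.card, C, hC, hc, rfl⟩
  obtain ⟨C', _, hC', hk⟩ := hmem
  rw [← hk, card_pos]
  obtain ⟨p, hp⟩ := List.exists_mem_of_ne_nil h hne
  obtain ⟨s, hs, _⟩ := hC' p hp
  exact ⟨s, hs⟩

lemma vcDim_le_two {n : ℕ} {𝒮 : Finset (Finset (Fin n))}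
    (H : ∀ a b c : Fin n, a ≠ b → a ≠ c → b ≠ c →
      ¬ ((∃ s ∈ 𝒮, a ∈ s ∧ b ∈ s ∧ c ∈ s) ∧ (∃ s ∈ 𝒮, a ∈ s ∧ b ∈ s ∧ c ∉ s) ∧
        (∃ s ∈ 𝒮, a ∉ s ∧ b ∈ s ∧ c ∈ s))) : vcDim 𝒮 ≤ 2 := by
  unfold vcDim
  refine csSup_le' ?_
  rintro k ⟨A, rfl, hA⟩
  by_contra hcon
  push Not at hcon
  obtain ⟨a, b, c, ha, hb, hc, hab, hac, hbc⟩ := two_lt_card_iff.1 hcon
  obtain ⟨u1, hu1, h1⟩ := hA A (subset_refl A)
  obtain ⟨u2, hu2, h2⟩ := hA {a, b} (by
    intro y hy; rw [mem_insert, mem_singleton] at hy; rcases hy with rfl | rfl <;> assumption)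
  obtain ⟨u3, hu3, h3⟩ := hA {b, c} (by
    intro y hy; rw [mem_insert, mem_singleton] at hy; rcases hy with rfl | rfl <;> assumption)
  have key1 : ∀ y ∈ A, y ∈ u1 := by
    intro y hy
    rw [← h1] at hy
    exact (mem_inter.1 hy).1
  have key2 : ∀ y ∈ A, (y ∈ u2 ↔ y = a ∨ y = b) := by
    intro y hy
    have : y ∈ u2 ∩ A ↔ y ∈ ({a, b} : Finset (Fin n)) := by rw [h2]
    simpa [hy] using this
  have key3 : ∀ y ∈ A, (y ∈ u3 ↔ y = b ∨ y = c) := by
    intro y hy
    have : y ∈ u3 ∩ A ↔ y ∈ ({b, c} : Finset (Fin n)) := by rw [h3]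
    simpa [hy] using this
  refine H a b c hab hac hbc ⟨⟨u1, hu1, key1 a ha, key1 b hb, key1 c hc⟩,
    ⟨u2, hu2, (key2 a ha).2 (Or.inl rfl), (key2 b hb).2 (Or.inr rfl), ?_⟩,
    ⟨u3, hu3, ?_, (key3 b hb).2 (Or.inl rfl), (key3 c hc).2 (Or.inr rfl)⟩⟩
  · intro hmem
    rcases (key2 c hc).1 hmem with h | h
    · exact hac h.symm
    · exact hbc h.symm
  · intro hmem
    rcases (key3 a ha).1 hmem with h | h
    · exact hab h
    · exact hac h

open Pool.Agent.K3h91.OSC in
/-- There are `c > 0` and `n₀` such that for every `n ≥ n₀` there is a set system on `n` points, of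
VC-dimension at most 2, on which every deterministic online set cover algorithm has an input on
which its cost is at least `c (log n)² ` times the (positive) optimum. -/
theorem result : ∃ c : ℝ, 0 < c ∧ ∃ n₀ : ℕ, ∀ n ≥ n₀,
    ∃ 𝒮 : Finset (Finset (Fin n)), vcDim 𝒮 ≤ 2 ∧
      ∀ A : OnlineAlg 𝒮, ∃ h, IsInput 𝒮 h ∧ 0 < opt 𝒮 h ∧
        c * (Real.log n) ^ 2 * opt 𝒮 h ≤ (A.sel h).card := by
  classical
  refine ⟨1 / 1000000, by norm_num, 2 ^ 3500, fun n hn => ?_⟩
  obtain ⟨hx, hxn, hlog⟩ := log_bound (a := 3500) (by norm_num) hn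
  set x := Nat.log 2 n / 3500 with hxdef
  have hL : 0 < 48 * x := by omega
  obtain ⟨I, hnice, hrich, hIcard, hSne⟩ := exists_system hx hL
  have hq : 0 < 2 ^ (2000 * x) := by positivity
  obtain ⟨e⟩ : Nonempty (I ↪ Fin n) := by
    apply Function.Embedding.nonempty_of_card_le
    rw [Fintype.card_coe, Fintype.card_fin]
    exact hIcard.trans hxn
  -- the set belonging to a point of the first system
  let T : X (1000 * x) (2 ^ (2000 * x)) → Finset (Fin n) := fun p =>
    (univ.filter (fun j : I => p ∈ S (H := 1000 * x) hL j.1)).map e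
  have hT : ∀ (p : X (1000 * x) (2 ^ (2000 * x))) (j : I), e j ∈ T p ↔ p ∈ S hL j.1 := by
    intro p j
    simp [T]
  let 𝒮 : Finset (Finset (Fin n)) := univ.image T
  have hT𝒮 : ∀ p, T p ∈ 𝒮 := fun p => mem_image_of_mem _ (mem_univ p)
  refine ⟨𝒮, ?_, ?_⟩
  · apply vcDim_le_two
    rintro a b c hab hac hbc ⟨⟨s1, hs1, a1, b1, c1⟩, ⟨s2, hs2, a2, b2, c2⟩, ⟨s3, hs3, a3, b3, c3⟩⟩
    obtain ⟨p1, _, rfl⟩ := mem_image.1 hs1
    obtain ⟨p2, _, rfl⟩ := mem_image.1 hs2
    obtain ⟨p3, _, rfl⟩ := mem_image.1 hs3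
    obtain ⟨a', _, rfl⟩ := mem_map.1 a1
    obtain ⟨b', _, rfl⟩ := mem_map.1 b1
    obtain ⟨c', _, rfl⟩ := mem_map.1 c1
    rw [hT] at a1 b1 c1 a2 b2 c2 a3 b3 c3
    refine dvc3 hnice a'.2 b'.2 c'.2 ?_ ?_ a1 b1 c1 a2 b2 c2 a3 b3 c3
    · intro h
      exact hab (by rw [Subtype.ext h])
    · intro h
      exact hbc (by rw [Subtype.ext h])
  · intro A
    -- representative of a set of the system
    let rep : Finset (Fin n) → X (1000 * x) (2 ^ (2000 * x)) := fun s =>
      if h : ∃ p, T p = s then h.choose else (⟨0, hq⟩, ⟨0, by positivity⟩)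
    have hrep : ∀ s ∈ 𝒮, T (rep s) = s := by
      intro s hs
      obtain ⟨p, _, hp⟩ := mem_image.1 hs
      have h : ∃ p, T p = s := ⟨p, hp⟩
      simp only [rep, dif_pos h]
      exact h.choose_spec
    let g : J (48 * x) (2 ^ (2000 * x)) → Fin n := fun j =>
      if h : j ∈ I then e ⟨j, h⟩ else ⟨0, by
        have : 0 < 2 ^ 3500 := by positivity
        omega⟩
    have hg : ∀ j (h : j ∈ I), g j = e ⟨j, h⟩ := fun j h => by simp only [g, dif_pos h]
    have hinput : ∀ h : List (J (48 * x) (2 ^ (2000 * x))), (∀ j ∈ h, j ∈ I) →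
        IsInput 𝒮 (h.map g) := by
      intro h h1 s hs
      rw [List.mem_map] at hs
      obtain ⟨j, hj, rfl⟩ := hs
      obtain ⟨p, hp⟩ := hSne j (h1 j hj)
      refine ⟨T p, hT𝒮 p, ?_⟩
      rw [hg j (h1 j hj), hT]
      exact hp
    let alg : List (J (48 * x) (2 ^ (2000 * x))) → Finset (X (1000 * x) (2 ^ (2000 * x))) :=
      fun h => (A.sel (h.map g)).image rep
    have halg : Alg hL I alg := by
      constructor
      · intro h j hh hj
        apply image_subset_image
        rw [List.map_append]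
        refine A.irrevocable (h.map g) (g j) ?_
        have := hinput (h ++ [j]) (by
          intro i hi
          rw [List.mem_append, List.mem_singleton] at hi
          rcases hi with hi | rfl
          · exact hh i hi
          · exact hj)
        rw [List.map_append] at this
        exact this
      · intro h hh j hj
        obtain ⟨s, hs1, hs2⟩ := A.covers (h.map g) (hinput h hh) (g j) (List.mem_map_of_mem hj)
        have hs𝒮 := A.subset (h.map g) (hinput h hh) hs1
        refine ⟨rep s, mem_image_of_mem _ hs1, ?_⟩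
        rw [← hrep s hs𝒮, hg j (hh j hj), hT] at hs2
        exact hs2
    obtain ⟨h, hne, hhI, ⟨z, hz⟩, hcost⟩ := core hx hL hq hrich halg
    have hsub : ((univ : Finset (Fin (2 ^ (2000 * x)))).image (fun i => T (i, z))) ⊆ 𝒮 := by
      intro s hs
      obtain ⟨i, _, rfl⟩ := mem_image.1 hs
      exact hT𝒮 _
    have hhit : IsCover ((univ : Finset (Fin (2 ^ (2000 * x)))).image
        (fun i => T (i, z))) (h.map g) := by
      intro s hs
      rw [List.mem_map] at hs
      obtain ⟨j, hj, rfl⟩ := hs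
      obtain ⟨i, hi⟩ := hz j hj
      refine ⟨T (i, z), mem_image_of_mem _ (mem_univ _), ?_⟩
      rw [hg j (hhI j hj), hT]
      exact hi
    have hopt : opt 𝒮 (h.map g) ≤ 2 ^ (2000 * x) := by
      refine (opt_le hsub hhit).trans (card_image_le.trans ?_)
      rw [card_univ, Fintype.card_fin]
    refine ⟨h.map g, hinput h hhI, opt_pos hsub hhit (by simpa using hne), ?_⟩
    have hcard : (alg h).card ≤ (A.sel (h.map g)).card := card_image_le
    have hlog0 : 0 ≤ Real.log n := Real.log_natCast_nonneg n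
    have hlog2 : (Real.log n) ^ 2 ≤ (7000 * x) ^ 2 := by
      refine pow_le_pow_left₀ hlog0 (hlog.trans (le_of_eq ?_)) 2
      push_cast
      ring
    have hopt' : ((opt 𝒮 (h.map g) : ℕ) : ℝ) ≤ ((2 ^ (2000 * x) : ℕ) : ℝ) := by
      exact_mod_cast hopt
    calc (1 / 1000000 : ℝ) * (Real.log n) ^ 2 * (opt 𝒮 (h.map g) : ℕ)
        ≤ 1 / 1000000 * (7000 * x) ^ 2 * ((2 ^ (2000 * x) : ℕ) : ℝ) := by gcongr
      _ ≤ 488 * (x : ℝ) ^ 2 * ((2 ^ (2000 * x) : ℕ) : ℝ) := by
          refine mul_le_mul_of_nonneg_right ?_ (by positivity)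
          nlinarith [sq_nonneg (x : ℝ)]
      _ = ((488 * x ^ 2 * 2 ^ (2000 * x) : ℕ) : ℝ) := by push_cast; ring
      _ ≤ ((alg h).card : ℝ) := by exact_mod_cast hcost
      _ ≤ ((A.sel (h.map g)).card : ℝ) := by exact_mod_cast hcard

end Pool.Agent.Results.MP_ba67f2_lc.SetCoverLower
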